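import Pool.Agent.Lib.MP_8f9fef_lc.Cons.Main

/-!
The transitive tournament on three vertices and the directed cycles of prime length decide
pp-constructibility from the two-element path for all conservative structures.
-/

namespace Pool.Agent.Results.MP_8f9fef_lc.Conservative

open H6PP

theorem result (σ : Sig) (B : Str σ)
    (hB : ∀ U : Set B.D, U.Nonempty → PP B Unit {a | a () ∈ U}) :
    ¬ PPC P2 B ↔
      (PPC B T3 ∨ ∃ (p : ℕ) (_ : Fact p.Prime), p ≤ Nat.card B.D ∧ PPC B (Cyc p)) :=
  H98C.conservative B hB

end Pool.Agent.Results.MP_8f9fef_lc.Conservative
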