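import Pool.Agent.Lib.MP_8f9fef_lc.Main

/-!
A finite structure `B` has no pp-construction from the two-element path iff it pp-constructs the
transitive tournament on three vertices or the structure of a finite simple group `G` acting on a
set `X` whose point stabilisers are exactly the maximal subgroups, with `|X| ≤ |B|`.
-/

namespace Pool.Agent.Results.MP_8f9fef_lc.SmallObstruction

open H6PP

theorem result {σ : Sig} (B : Str σ) : ¬ PPC P2 B ↔ (PPC B T3 ∨
    ∃ (G X : Type) (_ : Group G) (_ : Finite G) (_ : MulAction G X) (_ : Finite X)
      (_ : Nonempty X), IsSimpleGroup G ∧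
      (∀ M : Subgroup G, IsCoatom M ↔ ∃ x : X, MulAction.stabilizer G x = M) ∧
      Nat.card X ≤ Nat.card B.D ∧ PPC B (Act G X)) := by
  rw [final B]
  simp only [Good, and_assoc]

end Pool.Agent.Results.MP_8f9fef_lc.SmallObstruction
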