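import Pool.Agent.Lib.MP_8f9fef_lc.Twenty

/-!
The transitive tournament on three vertices and the directed cycles of prime length decide
pp-constructibility from the two-element path for all structures with at most `n` elements
exactly when `n ≤ 20`.
-/

namespace Pool.Agent.Results.MP_8f9fef_lc.TwentyPoints

open H6PP

theorem result (n : ℕ) (P : Set ℕ) (hP : ∀ p : ℕ, p.Prime → p ≤ n → p ∈ P) :
    (∀ (σ : Sig) (B : Str σ), Nat.card B.D ≤ n → (¬ PPC P2 B ↔
      (PPC B T3 ∨ ∃ (p : ℕ) (_ : Fact p.Prime), p ∈ P ∧ PPC B (Cyc p)))) ↔ n ≤ 20 :=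
  twenty n P hP

end Pool.Agent.Results.MP_8f9fef_lc.TwentyPoints
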